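import Pool.Agent.N102.FL.Stm

/-!
FL/SPAN (project FL of helper102): leading parts of relations give gradients. By helper56.
-/

set_option autoImplicit false

universe u

namespace Pool.Agent.N56.FL

open Pool.Agent.N102.FL

theorem t_span : S_SPAN.{u} := by
  classical
  intro p _ k κ _ _ _ _ _ T _ e R Ix fx cx l z hsp f hf w c hc hlev hw
  have hmem := hsp.2 f (Or.inr hf) {o | w ≤ wt p e l o} c hc hlev hw
  have hrt0 : rt p f (0 : k) = 0 := by unfold rt; exact map_zero _
  have hadd : ∀ c₁ c₂ : Option T → k,
      gW p e f w (c₁ + c₂) l z = gW p e f w c₁ l z + gW p e f w c₂ l z := by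
    intro c₁ c₂
    funext t
    simp only [gW, Pi.add_apply]
    split_ifs
    · have : rt p f (c₁ (some t) + c₂ (some t)) = rt p f (c₁ (some t)) + rt p f (c₂ (some t)) := by
        unfold rt
        exact map_add _ _ _
      rw [this, map_add, add_mul]
    · rw [add_zero]
  have hsmul : ∀ (a : k) (c₁ : Option T → k),
      gW p e f w (a • c₁) l z = (algebraMap k κ (rt p f a)) • gW p e f w c₁ l z := by
    intro a c₁
    funext t
    simp only [gW, Pi.smul_apply, smul_eq_mul]
    split_ifs
    · have : rt p f (a * c₁ (some t)) = rt p f a * rt p f (c₁ (some t)) := by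
        unfold rt
        exact map_mul _ _ _
      rw [this, map_mul, mul_assoc]
    · rw [mul_zero]
  have hzero : gW p e f w (0 : Option T → k) l z = (0 : T → κ) := by
    funext t
    simp only [gW, Pi.zero_apply, hrt0, map_zero, zero_mul, ite_self]
  clear hc hlev hw
  induction hmem using Submodule.span_induction with
  | mem c' h =>
    obtain ⟨i, hfi, hci, hW⟩ := h
    subst hci
    by_cases hA : ∃ o, cx i o ≠ 0 ∧ wt p e l o = w
    · obtain ⟨o, ho, hwo⟩ := hA
      have heq : gW p e f w (cx i) l z = gL p e (fx i) (cx i) l z := by
        funext t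
        simp only [gW, gL]
        by_cases het : e t = f
        · by_cases hwt : wt p e l (some t) = w
          · by_cases hct : cx i (some t) = 0
            · rw [if_pos ⟨hwt, het⟩, if_neg (fun h => h.1.1 hct), hct, hrt0, map_zero, zero_mul]
            · rw [if_pos ⟨hwt, het⟩, if_pos, hfi]
              refine ⟨⟨hct, fun o' ho' => ?_⟩, by rw [het, hfi]⟩
              rw [hwt]
              exact hW o' ho'
          · rw [if_neg (fun h => hwt h.1), if_neg]
            rintro ⟨⟨h1, h2⟩, _⟩
            exact hwt (le_antisymm ((h2 o ho).trans hwo.le) (hW _ h1))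
        · rw [if_neg (fun h => het h.2), if_neg (fun h => het (h.2.trans hfi))]
      rw [heq]
      exact Submodule.subset_span ⟨i, rfl⟩
    · have heq : gW p e f w (cx i) l z = (0 : T → κ) := by
        funext t
        simp only [gW, Pi.zero_apply]
        split_ifs with h
        · have : cx i (some t) = 0 := by
            by_contra h0
            exact hA ⟨some t, h0, h.1⟩
          rw [this, hrt0, map_zero, zero_mul]
        · rfl
      rw [heq]
      exact Submodule.zero_mem _
  | zero =>
    rw [hzero]
    exact Submodule.zero_mem _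
  | add c₁ c₂ _ _ h1 h2 =>
    rw [hadd]
    exact Submodule.add_mem _ h1 h2
  | smul a c₁ _ h1 =>
    rw [hsmul]
    exact Submodule.smul_mem _ _ h1

end Pool.Agent.N56.FL
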